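import Pool.Agent.H46.VT.Red

/-!
# MP_36d07e_lc: module GA (first half of the conclusion of the game)
-/

namespace Pool.Agent.H81.VT.GA

open _root_.VT
open Nat.Partrec (Code)
open Nat.Partrec.Code Encodable Denumerable

/-- The stage approximations are increasing. -/
lemma wst_mono {c : Code} {s t x : ℕ} (hst : s ≤ t) (h : Wst c s x) : Wst c t x := by
  unfold Wst at h ⊢
  obtain ⟨y, hy⟩ := Option.isSome_iff_exists.1 h
  exact Option.isSome_iff_exists.2 ⟨y, Nat.Partrec.Code.evaln_mono hst hy⟩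

/-- A number in `C` and in `S` which is in `S` or `S'` at stage `t1` is in `S` at that stage. -/
lemma wst_rs (hRA : TARGET_RA) (hLF : TARGET_LF) {ph : ℕ → ℕ → ℕ × ℕ} (hph : Run ph) {k x t' t1 : ℕ}
    (hinf : Inf ph k) (hC : Cin ph (rl k) t' x) (hS : x ∈ W (rs k))
    (h : Wst (rs k) t1 x ∨ Wst (rs' k) t1 x) : Wst (rs k) t1 x := by
  rcases h with h | h
  · exact h
  exfalso
  obtain ⟨s1, hs1⟩ := hS
  obtain ⟨t, ht, hphi⟩ := (hLF ph hph).1 k hinf x (max t' (max s1 t1))
  have ht1 : t' ≤ t := (le_max_left _ _).trans ht.le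
  have ht2 : s1 ≤ t := ((le_max_left _ _).trans (le_max_right _ _)).trans ht.le
  have ht3 : t1 ≤ t := ((le_max_right _ _).trans (le_max_right _ _)).trans ht.le
  have hCt : Cin ph (rl k) t x := (hRA ph hph).2.2.1 _ _ _ _ ht1 hC
  exact (hphi.1 hCt).1 (wst_mono ht2 hs1) (wst_mono ht3 h)

theorem pf_GA (hRA : TARGET_RA) (hLF : TARGET_LF) (hSP : TARGET_SP) (hPT : TARGET_PT)
    (hPR : TARGET_PR) : TARGET_GA := by
  intro ph hph k x hblk htrue hinf hUC hS hA
  obtain ⟨r1, r2, r3, r4, r5, r6, r7, r8, r9, r10, r11, r12, r13⟩ := hRA ph hph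
  obtain ⟨hkL, hg⟩ := htrue
  have hg0 : gX x k = 0 := (hg k le_rfl).trans (((hLF ph hph).2.1 k).2 hinf)
  obtain ⟨t0, ht0⟩ := hA
  rcases hblk with ⟨hl, hk⟩ | ⟨hl, hm, hk⟩
  · -- the pair `0`
    have hpos : (ph t0 x).2 = 0 := by
      rcases ht0 with h | h
      · exact h.2
      · exact absurd hl h.1
    obtain ⟨s, hst, hs⟩ := r12 t0 x
    have hptr : ptr x k = k + 1 := by simp [ptr, hk]
    obtain ⟨t1, h1, h2, h3⟩ := hPT ph hph x s t0 (k + 1) hst (by rw [hs]; simp only; omega)
      (Or.inr ⟨by rw [hs], by omega⟩)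
    rw [hs] at h3
    simp only at h3
    have hrs : Wst (rs k) t1 x := by
      refine wst_rs hRA hLF hph hinf (r5 _ _ _ ht0) hS ?_
      exact (hSP ph hph t1 x).2.1 (by rw [h3]; simp only; omega) k hk hl hg0
    have hact : act ph t1 x k := by
      refine ⟨?_, hg0, hrs⟩
      rw [hl]
      simp [cur, hk]
    refine ⟨t0, hPR ph hph x t1 t0 k h2 (by rw [h3]) hkL (by rw [h3, hptr]) hact
      (fun h => absurd hk (by omega)) fun _ => hpos⟩
  · -- a pair of level `li l` in the column `lm l`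
    obtain ⟨s, hU, hnC⟩ := hUC
    have hs : ph s x = (li (rl k), LX x + 4) := by
      have hle := r1 s x
      rcases hU with hU | ⟨-, -, hU⟩
      · exact absurd hU hl
      have hn : ¬ (li (rl k) < (ph s x).1 ∨ ((ph s x).1 = li (rl k) ∧ (ph s x).2 ≤ LX x + 3) ∨
          (ph s x).2 = 0) := fun h => hnC (Or.inr ⟨hl, hm, h⟩)
      push Not at hn
      obtain ⟨n1, n2, n3⟩ := hn
      have e1 : (ph s x).1 = li (rl k) := by
        rcases hU with hU | hU
        · omega
        · exact absurd hU n3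
      have e2 : (ph s x).2 = LX x + 4 := by
        have := n2 e1
        omega
      exact Prod.ext e1 e2
    -- a later stage at which `x` is in `A`
    obtain ⟨t', hst, ht'⟩ : ∃ t' ≥ s, li (rl k) < (ph t' x).1 ∨ (ph t' x).2 = 0 := by
      have h := r4 _ _ _ _ (le_max_right s t0) ht0
      refine ⟨max s t0, le_max_left _ _, ?_⟩
      rcases h with h | h
      · exact absurd h.1 hl
      · exact h.2.2
    have hCt : ∃ t, Cin ph (rl k) t x := ⟨t0, r5 _ _ _ ht0⟩
    obtain ⟨tc, hC⟩ := hCt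
    have hlev : li (rl k) ≤ (ph t' x).1 := by
      have := (r8 s t' x hst).1
      rw [hs] at this
      exact this
    have hptr : ptr x k = k + 3 := by simp [ptr, not_lt.2 hk]
    obtain ⟨t1, h1, h2, h3⟩ := hPT ph hph x s t' (k + 3) hst (by rw [hs]; simp only; omega) (by
      rw [hs]
      simp only
      rcases ht' with h | h
      · exact Or.inl ⟨h, by omega⟩
      · rcases hlev.eq_or_lt with h' | h'
        · exact Or.inr ⟨h', by omega⟩
        · exact Or.inl ⟨h', by omega⟩)
    rw [hs] at h3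
    simp only at h3
    have hcur : rl k = cur x (li (rl k)) k := by
      unfold cur
      rw [if_neg (not_lt.2 hk), hm]
      unfold lm li
      rw [Nat.pair_unpair]
      omega
    have hrs : Wst (rs k) t1 x := by
      refine wst_rs hRA hLF hph hinf hC hS ?_
      refine (hSP ph hph t1 x).1 (by rw [h3]; simp only; omega) k hkL hk ?_ hg0
      rw [h3]
      exact hcur
    have hact : act ph t1 x k := ⟨by rw [h3]; exact hcur, hg0, hrs⟩
    -- the end of the block
    obtain ⟨t2, h4, h5, h6⟩ : ∃ t2, t1 ≤ t2 ∧ (ph t2 x).1 = li (rl k) ∧ (ph t2 x).2 ≤ mX x + 2 := by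
      rcases hlev.eq_or_lt with h' | h'
      · refine ⟨t', h2, h'.symm, ?_⟩
        rcases ht' with h | h
        · omega
        · omega
      · obtain ⟨t2, g1, g2, g3⟩ := hPT ph hph x t1 t' (mX x + 2) h2
          (by rw [h3]; simp only; omega) (Or.inl ⟨by rw [h3]; exact h', le_rfl⟩)
        exact ⟨t2, g1, by rw [g3, h3], by rw [g3]⟩
    exact ⟨t2, hPR ph hph x t1 t2 k h4 (by rw [h3, h5]) hkL (by rw [h3, hptr]) hact
      (fun _ => h6) fun h => absurd h (not_lt.2 hk)⟩

end Pool.Agent.H81.VT.GA
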